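import Mathlib

/-!
# The set `{(6n+3)/(6n+2)}` is a set of topological multiplicative recurrence

There are arbitrarily large finite sets of positive integers such that for all `y < x` in the
set `y` is a multiple of `x - y` with quotient congruent to `2` modulo `6` (and at least `8`),
so that `x / y = (6n+3)/(6n+2)` with `n ≥ 1`.
-/

set_option autoImplicit false

open Set Filter Topology

namespace Pool.Agent.Results.MP_369d67_an.SixThreeTwo

/-- The set `S_{a,b,d}`. -/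
def S (a : ℕ) (b d : ℤ) : Set ℚ :=
  {r | ∃ n : ℕ, 1 ≤ n ∧ 0 < (a : ℤ) * n + b ∧ 0 < (a : ℤ) * n + d ∧
    r = ((a : ℚ) * n + b) / ((a : ℚ) * n + d)}

/-- Topological `(ℚ_{>0}, ×)`-systems (the maps `T r` with `r ≤ 0` are irrelevant). -/
structure IsSystem {X : Type} [TopologicalSpace X] (T : ℚ → X → X) : Prop where
  cont : ∀ r, 0 < r → Continuous (T r)
  mul : ∀ r s, 0 < r → 0 < s → ∀ x, T (r * s) x = T r (T s x)

/-- Minimality: every orbit is dense. -/
def IsMinimalSystem {X : Type} [TopologicalSpace X] (T : ℚ → X → X) : Prop :=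
  ∀ x : X, Dense {y | ∃ r : ℚ, 0 < r ∧ y = T r x}

/-- Sets of topological multiplicative recurrence. -/
def IsMultRecurrent (R : Set ℚ) : Prop :=
  ∀ (X : Type) [MetricSpace X] [CompactSpace X] (T : ℚ → X → X), IsSystem T → IsMinimalSystem T →
    ∀ U : Set X, IsOpen U → U.Nonempty → ∃ r ∈ R, (U ∩ T r ⁻¹' U).Nonempty

/-- The equivalent colouring property. -/
def IsColourRecurrent (R : Set ℚ) : Prop :=
  ∀ (k : ℕ) (c : ℕ → Fin k), ∃ x y : ℕ, 0 < x ∧ 0 < y ∧ c x = c y ∧ (x : ℚ) / y ∈ R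

/-- The property of the finite sets constructed below. -/
def Good (Z : Finset ℕ) : Prop :=
  (∀ x ∈ Z, 0 < x) ∧
    ∀ x ∈ Z, ∀ y ∈ Z, y < x → ∃ m : ℕ, y = m * (x - y) ∧ m % 6 = 2 ∧ 8 ≤ m

/-- A good set all of whose elements are divisible by `3` can be enlarged after a translation. -/
theorem enlarge (Z : Finset ℕ) (hZ : Good Z) (h3 : ∀ x ∈ Z, 3 ∣ x) :
    ∃ Z' : Finset ℕ, Good Z' ∧ Z'.card = Z.card + 1 := by
  classical
  -- the product of the elements and differences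
  set W : ℕ := (∏ x ∈ Z, x) * ∏ p ∈ (Z ×ˢ Z).filter (fun p => p.2 < p.1), (p.1 - p.2) with hW
  have hW0 : W ≠ 0 := by
    rw [hW]
    refine mul_ne_zero (Finset.prod_ne_zero_iff.2 fun x hx => (hZ.1 x hx).ne')
      (Finset.prod_ne_zero_iff.2 fun p hp => ?_)
    have := (Finset.mem_filter.1 hp).2
    omega
  have hxW : ∀ x ∈ Z, x ∣ W := fun x hx => (Finset.dvd_prod_of_mem _ hx).mul_right _
  have hdW : ∀ x ∈ Z, ∀ y ∈ Z, y < x → (x - y) ∣ W := by
    intro x hx y hy hxy
    have h : (x, y) ∈ (Z ×ˢ Z).filter (fun p => p.2 < p.1) :=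
      Finset.mem_filter.2 ⟨Finset.mem_product.2 ⟨hx, hy⟩, hxy⟩
    exact (Finset.dvd_prod_of_mem (fun p : ℕ × ℕ => p.1 - p.2) h).mul_left _
  -- split off the powers of 3
  obtain ⟨s, W', hWW', h3W'⟩ : ∃ s W' : ℕ, W = 3 ^ s * W' ∧ Nat.Coprime 3 W' := by
    obtain ⟨s, W', h1, h2⟩ := Nat.exists_eq_pow_mul_and_not_dvd hW0 3 (by norm_num)
    exact ⟨s, W', h2, (Nat.Prime.coprime_iff_not_dvd Nat.prime_three).2 h1⟩
  have hW'0 : 0 < W' := by
    rcases Nat.eq_zero_or_pos W' with h | h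
    · rw [h, mul_zero] at hWW'; exact absurd hWW' hW0
    · exact h
  have hxy : ∀ x ∈ Z, ∃ e y w : ℕ, 1 ≤ e ∧ x = 3 ^ e * y ∧ W' = y * w := by
    intro x hx
    obtain ⟨e, y, h1, h2⟩ := Nat.exists_eq_pow_mul_and_not_dvd (hZ.1 x hx).ne' 3 (by norm_num)
    have he : 1 ≤ e := by
      by_contra h
      have he0 : e = 0 := by omega
      rw [he0, pow_zero, one_mul] at h2
      exact h1 (h2 ▸ h3 x hx)
    have hyc : Nat.Coprime y (3 ^ s) :=
      (((Nat.Prime.coprime_iff_not_dvd Nat.prime_three).2 h1).symm).pow_right s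
    have hyW : y ∣ 3 ^ s * W' := by
      rw [← hWW']
      exact (Dvd.intro_left _ h2.symm).trans (hxW x hx)
    obtain ⟨w, hw⟩ := hyc.dvd_of_dvd_mul_left hyW
    exact ⟨e, y, w, he, h2, hw⟩
  choose! e y w he hx hw using hxy
  set L : ℕ := 2 * W' ^ 2 with hL
  have hL0 : 0 < L := by positivity
  set Q : ℕ → ℕ := fun x => 3 ^ (e x) + 2 * w x * W' with hQ
  have hD : ∀ x ∈ Z, x + L = y x * Q x := by
    intro x hxZ
    have h1 := hx x hxZ
    have h2 := hw x hxZ
    calc x + L = 3 ^ e x * y x + 2 * W' * W' := by rw [← h1, hL]; ring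
      _ = 3 ^ e x * y x + 2 * (y x * w x) * W' := by rw [← h2]
      _ = y x * Q x := by rw [hQ]; ring
  have hQ2 : ∀ x ∈ Z, Nat.Coprime (Q x) 2 := by
    intro x _
    have : Nat.Coprime (3 ^ e x + w x * W' * 2) 2 := by
      rw [Nat.coprime_add_mul_right_left]
      exact Nat.Coprime.pow_left _ (by norm_num)
    convert this using 1
    rw [hQ]; ring
  have hQW : ∀ x ∈ Z, Nat.Coprime (Q x) W' := by
    intro x _
    have : Nat.Coprime (3 ^ e x + 2 * w x * W') W' := by
      rw [Nat.coprime_add_mul_right_left]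
      exact Nat.Coprime.pow_left _ h3W'
    exact this
  have hQ3 : ∀ x ∈ Z, Nat.Coprime (Q x) 3 := by
    intro x hxZ
    obtain ⟨e', he'⟩ : ∃ e', e x = e' + 1 := ⟨e x - 1, by have := he x hxZ; omega⟩
    have h1 : Nat.Coprime (w x) 3 := by
      have : Nat.Coprime W' 3 := h3W'.symm
      rw [hw x hxZ] at this
      exact Nat.Coprime.coprime_mul_left this
    have h2 : Nat.Coprime (2 * w x * W' + 3 ^ e' * 3) 3 := by
      rw [Nat.coprime_add_mul_right_left]
      exact Nat.Coprime.mul_left (Nat.Coprime.mul_left (by norm_num) h1) h3W'.symm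
    convert h2 using 1
    rw [hQ]
    simp only
    rw [he', pow_succ, add_comm]
  have hQ6W : ∀ x ∈ Z, Nat.Coprime (Q x) (6 * W) := by
    intro x hxZ
    rw [hWW', show 6 * (3 ^ s * W') = 2 * (3 ^ (s + 1) * W') by ring]
    exact Nat.Coprime.mul_right (hQ2 x hxZ)
      (Nat.Coprime.mul_right (Nat.Coprime.pow_right _ (hQ3 x hxZ)) (hQW x hxZ))
  set QQ : ℕ := ∏ x ∈ Z, Q x with hQQ
  have hco : Nat.Coprime (6 * W) QQ := (Nat.Coprime.prod_left fun x hx => hQ6W x hx).symm
  have hQpos : ∀ x, 0 < Q x := fun x => by positivity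
  have hQQpos : 0 < QQ := Finset.prod_pos fun x _ => hQpos x
  obtain ⟨A0, hA0, hA0'⟩ := Nat.chineseRemainder hco 0 L
  -- a large solution
  set B : ℕ := L + 1 + 8 * ∑ x ∈ Z, (x + L) with hB
  set A : ℕ := A0 + B * (6 * W * QQ) with hA
  have hBA : B ≤ A := by
    have : 1 ≤ 6 * W * QQ := by
      have : 0 < W := Nat.pos_of_ne_zero hW0
      exact Nat.mul_pos (by omega) hQQpos
    calc B = B * 1 := (mul_one B).symm
      _ ≤ B * (6 * W * QQ) := Nat.mul_le_mul_left _ this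
      _ ≤ A := by rw [hA]; omega
  have hA6 : 6 * W ∣ A := by
    have h1 : 6 * W ∣ A0 := (Nat.modEq_zero_iff_dvd).1 hA0
    exact dvd_add h1 (Dvd.dvd.mul_left (dvd_mul_right _ _) _)
  have hLA : L ≤ A := le_trans (by rw [hB]; omega) hBA
  have hAQ : QQ ∣ A - L := by
    have h1 : L ≡ A [MOD QQ] := by
      have h2 : A0 ≡ L [MOD QQ] := hA0'
      have h3 : A ≡ A0 [MOD QQ] := by
        have h4 : B * (6 * W * QQ) ≡ 0 [MOD QQ] :=
          (Nat.modEq_zero_iff_dvd).2 (Dvd.dvd.mul_left (dvd_mul_left _ _) _)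
        exact Nat.ModEq.add_left A0 h4
      exact (h3.trans h2).symm
    exact (Nat.modEq_iff_dvd' hLA).1 h1
  -- the new pairs
  have hnew : ∀ x ∈ Z, ∃ m : ℕ, A - L = m * (x + L) ∧ m % 6 = 2 ∧ 8 ≤ m := by
    intro x hxZ
    have h1 : 2 * y x ∣ A - L := by
      refine Nat.dvd_sub ?_ ?_
      · refine dvd_trans ?_ hA6
        refine mul_dvd_mul (by norm_num) ?_
        rw [hWW', hw x hxZ]
        exact (dvd_mul_right _ _).mul_left _
      · rw [hL]
        refine mul_dvd_mul (dvd_refl _) ?_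
        rw [hw x hxZ, sq]
        exact (dvd_mul_right _ _).mul_right _
    have h2 : Q x ∣ A - L := (Finset.dvd_prod_of_mem _ hxZ).trans hAQ
    have hyc : Nat.Coprime (2 * y x) (Q x) := by
      refine Nat.Coprime.mul_left (hQ2 x hxZ).symm ?_
      have := (hQW x hxZ).symm
      rw [hw x hxZ] at this
      exact Nat.Coprime.coprime_mul_right this
    have h3' : 2 * y x * Q x ∣ A - L := hyc.mul_dvd_of_dvd_of_dvd h1 h2
    rw [mul_assoc, ← hD x hxZ] at h3'
    obtain ⟨k, hk⟩ := h3'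
    have hAe : A = 2 * k * (x + L) + L := by
      have : A = (A - L) + L := by omega
      rw [this, hk]; ring
    have hk3 : 3 ∣ (2 * k + 1) * L := by
      have h4 : 3 ∣ A := dvd_trans (by rw [show 6 * W = 3 * (2 * W) by ring]; exact dvd_mul_right _ _) hA6
      have h5 : A = (2 * k + 1) * L + 2 * k * x := by rw [hAe]; ring
      rw [h5] at h4
      exact (Nat.dvd_add_left ((h3 x hxZ).mul_left _)).1 h4
    have hL3 : Nat.Coprime 3 L := by
      rw [hL]
      exact Nat.Coprime.mul_right (by norm_num) (Nat.Coprime.pow_right _ h3W')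
    have hk3' : 3 ∣ 2 * k + 1 := hL3.dvd_of_dvd_mul_right hk3
    refine ⟨2 * k, by rw [hk]; ring, by omega, ?_⟩
    by_contra hlt
    have h6 : 2 * k ≤ 7 := by omega
    have h7 : x + L ≤ ∑ x ∈ Z, (x + L) := Finset.single_le_sum (f := fun x => x + L)
      (fun _ _ => Nat.zero_le _) hxZ
    have h8 : 2 * k * (x + L) ≤ 7 * (x + L) := Nat.mul_le_mul_right _ h6
    have h9 : 0 < x := hZ.1 x hxZ
    omega
  refine ⟨insert (A - L) (Z.image (fun x => A + x)), ⟨?_, ?_⟩, ?_⟩
  · intro x hxm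
    rcases Finset.mem_insert.1 hxm with h | h
    · rw [h]
      omega
    · obtain ⟨z, hz, rfl⟩ := Finset.mem_image.1 h
      have := hZ.1 z hz
      omega
  · intro x hxm y' hym hlt
    rcases Finset.mem_insert.1 hxm with h | h
    · rcases Finset.mem_insert.1 hym with h' | h'
      · omega
      · obtain ⟨z, hz, rfl⟩ := Finset.mem_image.1 h'
        omega
    · obtain ⟨z, hz, rfl⟩ := Finset.mem_image.1 h
      rcases Finset.mem_insert.1 hym with h' | h'
      · obtain ⟨m, hm1, hm2, hm3⟩ := hnew z hz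
        refine ⟨m, ?_, hm2, hm3⟩
        rw [h', hm1, show A + z - m * (z + L) = z + L by omega]
      · obtain ⟨z', hz', rfl⟩ := Finset.mem_image.1 h'
        have hzz : z' < z := by
          omega
        obtain ⟨m, hm1, hm2, hm3⟩ := hZ.2 z hz z' hz' hzz
        obtain ⟨k, hk⟩ : 6 * (z - z') ∣ A := (mul_dvd_mul (dvd_refl _) (hdW z hz z' hz' hzz)).trans hA6
        refine ⟨6 * k + m, ?_, by omega, by omega⟩
        rw [show A + z - (A + z') = z - z' by omega, add_mul, ← hm1, hk]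
        ring
  · rw [Finset.card_insert_of_notMem, Finset.card_image_of_injective _ (add_right_injective A)]
    intro hmem
    obtain ⟨z, hz, hzz⟩ := Finset.mem_image.1 hmem
    have := hZ.1 z hz
    omega

theorem exists_good (N : ℕ) : ∃ Z : Finset ℕ, Good Z ∧ Z.card = N := by
  induction N with
  | zero => exact ⟨∅, ⟨by simp, by simp⟩, rfl⟩
  | succ N ih =>
    obtain ⟨Z, hZ, hc⟩ := ih
    have hinj : Function.Injective (fun x : ℕ => 3 * x) := fun a b h => by
      have : 3 * a = 3 * b := h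
      omega
    obtain ⟨Z', hZ', hc'⟩ := enlarge (Z.image (fun x => 3 * x)) (by
      refine ⟨fun x hx => ?_, fun x hx y hy hlt => ?_⟩
      · obtain ⟨z, hz, rfl⟩ := Finset.mem_image.1 hx
        have := hZ.1 z hz
        omega
      · obtain ⟨z, hz, rfl⟩ := Finset.mem_image.1 hx
        obtain ⟨z', hz', rfl⟩ := Finset.mem_image.1 hy
        obtain ⟨m, hm1, hm2, hm3⟩ := hZ.2 z hz z' hz' (by omega)
        refine ⟨m, ?_, hm2, hm3⟩
        rw [← Nat.mul_sub, mul_left_comm, ← hm1]) (by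
      intro x hx
      obtain ⟨z, hz, rfl⟩ := Finset.mem_image.1 hx
      exact dvd_mul_right _ _)
    exact ⟨Z', hZ', by rw [hc', Finset.card_image_of_injective _ hinj, hc]⟩

theorem colour {ι : Type*} [Fintype ι] (c : ℕ → ι) :
    ∃ x y : ℕ, 0 < x ∧ 0 < y ∧ c x = c y ∧ (x : ℚ) / y ∈ S 6 3 2 := by
  obtain ⟨Z, hZ, hc⟩ := exists_good (Fintype.card ι + 1)
  obtain ⟨x, hx, y, hy, hxy, hcxy⟩ := Finset.exists_ne_map_eq_of_card_lt_of_maps_to
    (s := Z) (t := Finset.univ) (f := c) (by rw [hc, Finset.card_univ]; omega)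
    (fun a _ => Finset.mem_univ _)
  -- order the two points
  wlog hlt : y < x generalizing x y with H
  · exact H y hy x hx hxy.symm hcxy.symm (by omega)
  obtain ⟨m, hm1, hm2, hm3⟩ := hZ.2 x hx y hy hlt
  refine ⟨x, y, hZ.1 x hx, hZ.1 y hy, hcxy, (m - 2) / 6, by omega, by positivity, by positivity, ?_⟩
  have hm : m = 6 * ((m - 2) / 6) + 2 := by omega
  set n := (m - 2) / 6
  have hd : 0 < x - y := by omega
  have hyq : (y : ℚ) = (6 * n + 2) * ((x - y : ℕ) : ℚ) := by
    have : y = (6 * n + 2) * (x - y) := by rw [← hm]; exact hm1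
    exact_mod_cast this
  have hxq : (x : ℚ) = (6 * n + 3) * ((x - y : ℕ) : ℚ) := by
    have h1 : (x : ℚ) = y + ((x - y : ℕ) : ℚ) := by
      have : x = y + (x - y) := by omega
      exact_mod_cast this
    rw [h1, hyq]
    ring
  have hdq : ((x - y : ℕ) : ℚ) ≠ 0 := by exact_mod_cast hd.ne'
  rw [hxq, hyq, mul_div_mul_right _ _ hdq]
  push_cast
  ring

/-- The set `{(6n+3)/(6n+2)}` has the colouring property. -/
theorem colourRecurrent : IsColourRecurrent (S 6 3 2) := fun _ c => colour c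

theorem multRecurrent : IsMultRecurrent (S 6 3 2) := by
  intro X _ _ T hT hmin U hU hUne
  -- finitely many preimages of `U` cover `X`
  have hcov : ∃ F : Finset {q : ℚ // 0 < q}, (univ : Set X) ⊆ ⋃ q ∈ F, T q ⁻¹' U := by
    refine isCompact_univ.elim_finite_subcover (fun q : {q : ℚ // 0 < q} => T q ⁻¹' U)
      (fun q => hU.preimage (hT.cont q q.2)) ?_
    intro x _
    obtain ⟨y, hyU, q, hq, rfl⟩ := (hmin x).inter_open_nonempty U hU hUne
    exact mem_iUnion.2 ⟨⟨q, hq⟩, hyU⟩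
  obtain ⟨F, hF⟩ := hcov
  obtain ⟨x0, -⟩ := hUne
  have hex : ∀ n : ℕ, ∃ q : F, T (q : {q : ℚ // 0 < q}) (T n x0) ∈ U := by
    intro n
    obtain ⟨q, hq, h⟩ := mem_iUnion₂.1 (hF (mem_univ (T n x0)))
    exact ⟨⟨q, hq⟩, h⟩
  choose c hc using hex
  obtain ⟨x, y, hx, hy, hxy, hr⟩ := colour c
  have hxq : (0 : ℚ) < x := by exact_mod_cast hx
  have hyq : (0 : ℚ) < y := by exact_mod_cast hy
  refine ⟨_, hr, T (c y : {q : ℚ // 0 < q}) (T y x0), hc y, ?_⟩
  show T ((x : ℚ) / y) (T (c y : {q : ℚ // 0 < q}) (T y x0)) ∈ U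
  have hq0 : 0 < ((c y : {q : ℚ // 0 < q}) : ℚ) := (c y : {q : ℚ // 0 < q}).2
  have h1 := hc x
  rw [hxy, ← hT.mul _ _ hq0 hxq] at h1
  rw [← hT.mul _ _ hq0 hyq, ← hT.mul _ _ (div_pos hxq hyq) (mul_pos hq0 hyq)]
  convert h1 using 2
  field_simp

/-- **Negative answer to Q1**: for `a = 6`, `b = 3`, `d = 2` neither `a ∣ b` nor `a ∣ d`, but
`S_{a,b,d}` is a set of topological multiplicative recurrence (and has the equivalent colouring
property). -/
theorem result : ∃ (a : ℕ) (b d : ℤ), 0 < a ∧ b ≠ d ∧ ¬ ((a : ℤ) ∣ b) ∧ ¬ ((a : ℤ) ∣ d) ∧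
    IsMultRecurrent (S a b d) ∧ IsColourRecurrent (S a b d) :=
  ⟨6, 3, 2, by norm_num, by norm_num, by norm_num, by norm_num, multRecurrent, colourRecurrent⟩

end Pool.Agent.Results.MP_369d67_an.SixThreeTwo
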